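import Pool.Agent.H933.LL.Stm9
import Mathlib

/-!
# Accumulation points of the spectrum of a normal operator survive compact perturbations
-/

set_option autoImplicit false

open MeasureTheory Metric Filter Topology
open scoped Real InnerProductSpace ENNReal

namespace Pool.Agent.H363.LL

noncomputable section

/-- bump in the annulus -/
def fb (l : ℂ) (d : ℝ) (z : ℂ) : ℂ := ((max 0 (1 - |‖z - l‖ - d| * 4 / d) : ℝ) : ℂ)

lemma fb_cont (l : ℂ) (d : ℝ) : Continuous (fb l d) := by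
  unfold fb
  fun_prop

lemma fb_star (l : ℂ) (d : ℝ) (z : ℂ) : star (fb l d z) = fb l d z := by
  unfold fb
  exact Complex.conj_ofReal _

lemma fb_one {l μ : ℂ} {d : ℝ} (h : ‖μ - l‖ = d) : fb l d μ = 1 := by
  unfold fb
  rw [h]
  simp

lemma fb_supp {l z : ℂ} {d : ℝ} (hd : 0 < d) (h : fb l d z ≠ 0) :
    3 / 4 * d < ‖z - l‖ ∧ ‖z - l‖ < 5 / 4 * d := by
  have h1 : 0 < 1 - |‖z - l‖ - d| * 4 / d := by
    by_contra hn
    apply h
    unfold fb
    rw [max_eq_left (not_lt.mp hn)]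
    simp
  have h2 : |‖z - l‖ - d| * 4 / d < 1 := by linarith
  rw [div_lt_one hd] at h2
  have h3 := abs_lt.mp (show |‖z - l‖ - d| < d / 4 by linarith)
  constructor <;> linarith [h3.1, h3.2]

lemma fb_disj {l z : ℂ} {d e : ℝ} (he : 0 < e) (h : e ≤ d / 4) : fb l d z * fb l e z = 0 := by
  have hd : 0 < d := by linarith
  by_contra hn
  have h1 := fb_supp hd (left_ne_zero_of_mul hn)
  have h2 := fb_supp he (right_ne_zero_of_mul hn)
  linarith [h1.1, h2.2]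

/-- cut-off of `z - l` -/
def hb (l : ℂ) (d : ℝ) (z : ℂ) : ℂ := (z - l) * ((max 0 (min 1 (3 - ‖z - l‖ / d)) : ℝ) : ℂ)

lemma hb_cont (l : ℂ) (d : ℝ) : Continuous (hb l d) := by
  unfold hb
  fun_prop

lemma hb_bd {l : ℂ} {d : ℝ} (hd : 0 < d) (z : ℂ) : ‖hb l d z‖ ≤ 3 * d := by
  unfold hb
  rw [norm_mul, Complex.norm_real, Real.norm_of_nonneg (le_max_left _ _)]
  by_cases h : ‖z - l‖ ≤ 3 * d
  · have h1 : max 0 (min 1 (3 - ‖z - l‖ / d)) ≤ 1 := max_le zero_le_one (min_le_left _ _)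
    have h2 := norm_nonneg (z - l)
    have h3 : 0 ≤ max 0 (min 1 (3 - ‖z - l‖ / d)) := le_max_left _ _
    nlinarith
  · have h1 : 3 - ‖z - l‖ / d ≤ 0 := by
      have : 3 ≤ ‖z - l‖ / d := by
        rw [le_div_iff₀ hd]
        linarith
      linarith
    have h2 : max 0 (min 1 (3 - ‖z - l‖ / d)) = 0 := max_eq_left ((min_le_right _ _).trans h1)
    rw [h2, mul_zero]
    linarith

lemma hb_fb {l : ℂ} {d : ℝ} (hd : 0 < d) (z : ℂ) : (z - l) * fb l d z = hb l d z * fb l d z := by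
  by_cases h : fb l d z = 0
  · rw [h]
    ring
  · have h1 := fb_supp hd h
    have h2 : ‖z - l‖ / d ≤ 2 := by
      rw [div_le_iff₀ hd]
      linarith [h1.2]
    have h3 : hb l d z = z - l := by
      unfold hb
      rw [min_eq_left (by linarith), max_eq_right zero_le_one]
      simp
    rw [h3]

variable {H : Type} [NormedAddCommGroup H] [InnerProductSpace ℂ H] [CompleteSpace H]

lemma key {N : H →L[ℂ] H} (hN : IsStarNormal N) {l μ : ℂ} (hμ : μ ∈ spectrum ℂ N) (hne : μ ≠ l) :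
    ∃ w : H, ‖cfc (fb l ‖μ - l‖) N w‖ = 1 ∧
      ‖(N - algebraMap ℂ (H →L[ℂ] H) l) (cfc (fb l ‖μ - l‖) N w)‖ ≤ 3 * ‖μ - l‖ := by
  set d := ‖μ - l‖ with hd
  have hd0 : 0 < d := norm_pos_iff.mpr (sub_ne_zero.mpr hne)
  have h1 : 1 ≤ ‖cfc (fb l d) N‖ := by
    have := norm_apply_le_norm_cfc (fb l d) N hμ (fb_cont l d).continuousOn hN
    rwa [fb_one hd.symm, norm_one] at this
  have h2 : ∃ y : H, cfc (fb l d) N y ≠ 0 := by
    by_contra hn
    push Not at hn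
    have : cfc (fb l d) N = 0 := ContinuousLinearMap.ext hn
    rw [this, norm_zero] at h1
    linarith
  obtain ⟨y, hy⟩ := h2
  refine ⟨((‖cfc (fb l d) N y‖⁻¹ : ℝ) : ℂ) • y, ?_, ?_⟩
  · rw [map_smul, norm_smul, Complex.norm_real, norm_inv, norm_norm]
    exact inv_mul_cancel₀ (norm_ne_zero_iff.mpr hy)
  · set w := ((‖cfc (fb l d) N y‖⁻¹ : ℝ) : ℂ) • y with hw
    have hw1 : ‖cfc (fb l d) N w‖ = 1 := by
      rw [hw, map_smul, norm_smul, Complex.norm_real, norm_inv, norm_norm]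
      exact inv_mul_cancel₀ (norm_ne_zero_iff.mpr hy)
    have e1 : N - algebraMap ℂ (H →L[ℂ] H) l = cfc (fun z : ℂ => z - l) N := by
      rw [cfc_sub (fun z : ℂ => z) (fun _ : ℂ => l) N (by fun_prop) (by fun_prop), cfc_id' ℂ N hN,
        cfc_const l N hN]
    have e2 : (N - algebraMap ℂ (H →L[ℂ] H) l) * cfc (fb l d) N = cfc (hb l d) N * cfc (fb l d) N := by
      rw [e1, ← cfc_mul _ _ N (by fun_prop) (fb_cont l d).continuousOn,
        ← cfc_mul _ _ N (hb_cont l d).continuousOn (fb_cont l d).continuousOn]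
      refine cfc_congr fun z _ => ?_
      exact hb_fb hd0 z
    have e3 : (N - algebraMap ℂ (H →L[ℂ] H) l) (cfc (fb l d) N w) = cfc (hb l d) N (cfc (fb l d) N w) := by
      have := congrArg (fun T : H →L[ℂ] H => T w) e2
      exact this
    rw [e3]
    have e4 : ‖cfc (hb l d) N‖ ≤ 3 * d := norm_cfc_le (by positivity) fun z _ => hb_bd hd0 z
    calc ‖cfc (hb l d) N (cfc (fb l d) N w)‖ ≤ ‖cfc (hb l d) N‖ * ‖cfc (fb l d) N w‖ :=
          ContinuousLinearMap.le_opNorm _ _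
      _ ≤ 3 * d * 1 := by
          rw [hw1]
          gcongr
      _ = 3 * d := mul_one _

lemma orth {N : H →L[ℂ] H} {l : ℂ} {d e : ℝ} (he : 0 < e) (h : e ≤ d / 4)
    (v w : H) : ⟪cfc (fb l d) N v, cfc (fb l e) N w⟫_ℂ = 0 := by
  have h1 : star (cfc (fb l d) N) = cfc (fb l d) N := by
    rw [← cfc_star]
    refine cfc_congr fun z _ => ?_
    exact fb_star l d z
  have h2 : cfc (fb l d) N * cfc (fb l e) N = 0 := by
    rw [← cfc_mul _ _ N (fb_cont l d).continuousOn (fb_cont l e).continuousOn]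
    have : cfc (fun z : ℂ => fb l d z * fb l e z) N = cfc (fun _ : ℂ => (0 : ℂ)) N :=
      cfc_congr fun z _ => fb_disj he h
    rw [this, cfc_const_zero]
  have h3 : cfc (fb l d) N v = star (cfc (fb l d) N) v := by rw [h1]
  rw [h3, ContinuousLinearMap.star_eq_adjoint, ContinuousLinearMap.adjoint_inner_left]
  have h4 : cfc (fb l d) N (cfc (fb l e) N w) = (cfc (fb l d) N * cfc (fb l e) N) w := rfl
  rw [h4, h2]
  simp

lemma seq {A : Set ℂ} {l : ℂ} (hacc : ∀ ε : ℝ, 0 < ε → ∃ μ ∈ A, μ ≠ l ∧ ‖μ - l‖ < ε) :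
    ∃ μ : ℕ → ℂ, (∀ n, μ n ∈ A) ∧ (∀ n, μ n ≠ l) ∧
      (∀ n k, ‖μ (n + k + 1) - l‖ ≤ ‖μ n - l‖ / 4) ∧ Tendsto (fun n => ‖μ n - l‖) atTop (𝓝 0) := by
  choose m hm1 hm2 hm3 using hacc
  obtain ⟨e, he0, he⟩ : ∃ e : ℕ → {x : ℝ // 0 < x}, (e 0).1 = 1 ∧
      ∀ n, (e (n + 1)).1 = ‖m (e n).1 (e n).2 - l‖ / 4 := by
    refine ⟨fun n => Nat.rec ⟨1, one_pos⟩ (fun _ p => ⟨‖m p.1 p.2 - l‖ / 4, by
      have := norm_pos_iff.mpr (sub_ne_zero.mpr (hm2 p.1 p.2))
      positivity⟩) n, rfl, fun n => rfl⟩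
  obtain ⟨μ, hμ⟩ : ∃ μ : ℕ → ℂ, ∀ n, μ n = m (e n).1 (e n).2 := ⟨fun n => m (e n).1 (e n).2, fun n => rfl⟩
  have hμ1 : ∀ n, μ n ∈ A := fun n => by rw [hμ]; exact hm1 _ _
  have hμ2 : ∀ n, μ n ≠ l := fun n => by rw [hμ]; exact hm2 _ _
  have hμ3 : ∀ n, ‖μ n - l‖ < (e n).1 := fun n => by rw [hμ]; exact hm3 _ _
  have he' : ∀ n, (e (n + 1)).1 = ‖μ n - l‖ / 4 := fun n => by rw [he, hμ]
  have hstep : ∀ n, ‖μ (n + 1) - l‖ ≤ ‖μ n - l‖ / 4 := fun n => by
    have := hμ3 (n + 1)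
    rw [he'] at this
    exact this.le
  have hdec : ∀ n k, ‖μ (n + k + 1) - l‖ ≤ ‖μ n - l‖ / 4 := by
    intro n k
    induction k with
    | zero => exact hstep n
    | succ k ih =>
      have h1 := hstep (n + k + 1)
      have h2 := norm_nonneg (μ (n + k + 1) - l)
      have h3 : n + (k + 1) + 1 = n + k + 1 + 1 := by ring
      rw [h3]
      linarith
  have hsm : ∀ n, ‖μ n - l‖ ≤ (1 / 4) ^ n := by
    intro n
    induction n with
    | zero =>
      have h1 := hμ3 0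
      rw [he0] at h1
      rw [pow_zero]
      exact h1.le
    | succ n ih =>
      have h1 := hstep n
      rw [pow_succ]
      linarith
  exact ⟨μ, hμ1, hμ2, hdec, squeeze_zero (fun n => norm_nonneg _) hsm
    (tendsto_pow_atTop_nhds_zero_of_lt_one (by norm_num) (by norm_num))⟩

theorem p_weyl : Pool.Agent.H933.LL.P_weyl := by
  intro H _ _ _ N K l hN hK hacc
  by_contra hl
  obtain ⟨μ, hμ1, hμ2, hdec, hd0⟩ := seq hacc
  have hpos : ∀ n, 0 < ‖μ n - l‖ := fun n => norm_pos_iff.mpr (sub_ne_zero.mpr (hμ2 n))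
  -- unit vectors
  choose w hw1 hw2 using fun n => key hN (hμ1 n) (hμ2 n)
  obtain ⟨x, hx⟩ : ∃ x : ℕ → H, ∀ n, x n = cfc (fb l ‖μ n - l‖) N (w n) := ⟨_, fun n => rfl⟩
  simp only [← hx] at hw1 hw2
  have hxo : Orthonormal ℂ x := by
    refine ⟨hw1, ?_⟩
    intro i j hij
    have hlt : ∀ i j : ℕ, i < j → ⟪x i, x j⟫_ℂ = 0 := by
      intro i j hij
      obtain ⟨k, rfl⟩ : ∃ k, j = i + k + 1 := ⟨j - i - 1, by omega⟩
      rw [hx, hx]
      exact orth (hpos _) (hdec i k) _ _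
    rcases lt_or_gt_of_ne hij with h | h
    · exact hlt i j h
    · rw [← inner_conj_symm, hlt j i h, map_zero]
  have hweak : ∀ y : H, Tendsto (fun n => ⟪x n, y⟫_ℂ) atTop (𝓝 0) := by
    intro y
    have h1 := (hxo.inner_products_summable (x := y)).tendsto_atTop_zero
    have h2 : Tendsto (fun n => Real.sqrt (‖⟪x n, y⟫_ℂ‖ ^ 2)) atTop (𝓝 (Real.sqrt 0)) :=
      (Real.continuous_sqrt.tendsto 0).comp h1
    rw [Real.sqrt_zero] at h2
    simp only [Real.sqrt_sq (norm_nonneg _)] at h2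
    exact tendsto_zero_iff_norm_tendsto_zero.mpr h2
  -- a convergent subsequence
  have hcomp := hK.isCompact_closure_image_closedBall (𝕜₁ := ℂ) 1
  have hmem : ∀ n, K (x n) ∈ closure ((K : H →ₗ[ℂ] H) '' closedBall 0 1) := by
    intro n
    refine subset_closure ⟨x n, ?_, rfl⟩
    rw [mem_closedBall, dist_zero_right]
    exact (hw1 n).le
  obtain ⟨v, -, φ, hφ, hv⟩ := hcomp.tendsto_subseq hmem
  -- the limit is zero
  have hv0 : v = 0 := by
    have h1 : Tendsto (fun n => ⟪K (x (φ n)), v⟫_ℂ) atTop (𝓝 ⟪v, v⟫_ℂ) :=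
      hv.inner tendsto_const_nhds
    have h2 : Tendsto (fun n => ⟪K (x (φ n)), v⟫_ℂ) atTop (𝓝 0) := by
      have h3 : ∀ n, ⟪K (x (φ n)), v⟫_ℂ = ⟪x (φ n), ContinuousLinearMap.adjoint K v⟫_ℂ := fun n =>
        (ContinuousLinearMap.adjoint_inner_right K _ _).symm
      simp_rw [h3]
      exact (hweak _).comp hφ.tendsto_atTop
    exact inner_self_eq_zero.mp (tendsto_nhds_unique h1 h2)
  rw [hv0] at hv
  -- the operator is not bounded below
  rw [spectrum.notMem_iff] at hl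
  obtain ⟨u, hu⟩ := hl
  set M : H →L[ℂ] H := ((u⁻¹ : (H →L[ℂ] H)ˣ) : H →L[ℂ] H) with hM
  have hinv : ∀ z : H, z = M ((algebraMap ℂ (H →L[ℂ] H) l - (N + K)) z) := by
    intro z
    rw [← hu]
    have : (M * (u : H →L[ℂ] H)) z = z := by
      rw [hM, Units.inv_mul]
      rfl
    exact this.symm
  have hlow : ∀ n, 1 ≤ ‖M‖ * (3 * ‖μ (φ n) - l‖ + ‖K (x (φ n))‖) := by
    intro n
    have h1 := hinv (x (φ n))
    have h2 : ‖x (φ n)‖ = 1 := hw1 _
    have h3 : (algebraMap ℂ (H →L[ℂ] H) l - (N + K)) (x (φ n)) =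
        -((N - algebraMap ℂ (H →L[ℂ] H) l) (x (φ n))) - K (x (φ n)) := by
      simp only [sub_apply, add_apply]
      abel
    calc 1 = ‖x (φ n)‖ := h2.symm
      _ = ‖M ((algebraMap ℂ (H →L[ℂ] H) l - (N + K)) (x (φ n)))‖ := by rw [← h1]
      _ ≤ ‖M‖ * ‖(algebraMap ℂ (H →L[ℂ] H) l - (N + K)) (x (φ n))‖ := ContinuousLinearMap.le_opNorm _ _
      _ ≤ ‖M‖ * (3 * ‖μ (φ n) - l‖ + ‖K (x (φ n))‖) := by
        gcongr
        rw [h3]
        refine (norm_sub_le _ _).trans ?_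
        rw [norm_neg]
        have := hw2 (φ n)
        gcongr
  have hlim : Tendsto (fun n => ‖M‖ * (3 * ‖μ (φ n) - l‖ + ‖K (x (φ n))‖)) atTop
      (𝓝 (‖M‖ * (3 * 0 + ‖(0 : H)‖))) :=
    (((hd0.comp hφ.tendsto_atTop).const_mul 3).add hv.norm).const_mul ‖M‖
  have := ge_of_tendsto' hlim hlow
  simp at this
  linarith

end

end Pool.Agent.H363.LL
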